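import Pool.Agent.Y369.SX.ArsA

set_option autoImplicit false

/-! Two arithmetic sums: the second sum. -/

namespace Pool.Agent.Y369.SX

open Finset

lemma mult_sum (M e : ℕ) (he : 1 ≤ e) (g : ℕ → ℝ) (hg : ∀ m, 0 ≤ g m) :
    ∑ m ∈ Icc 1 M, (if e ∣ m then g m else 0) ≤ ∑ m ∈ Icc 1 M, g (e * m) := by
  rw [← sum_filter]
  have hinj : ∀ x ∈ Icc 1 M, ∀ y ∈ Icc 1 M, e * x = e * y → x = y := by
    intro x _ y _ h
    exact Nat.eq_of_mul_eq_mul_left he h
  rw [← sum_image (f := g) hinj]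
  apply sum_le_sum_of_subset_of_nonneg
  · intro m hm
    rw [mem_filter, mem_Icc] at hm
    obtain ⟨⟨h1, h2⟩, k, hk⟩ := hm
    rw [mem_image]
    have hk0 : k ≠ 0 := by rintro rfl; omega
    have hk1 : k ≤ e * k := Nat.le_mul_of_pos_left k he
    exact ⟨k, by rw [mem_Icc]; omega, hk.symm⟩
  · intro m _ _
    exact hg m

/-- `∑ gcd(m, r)/m` -/
noncomputable def G (M r : ℕ) : ℝ := ∑ m ∈ Icc 1 M, (Nat.gcd m r : ℝ) / m

lemma G_nonneg (M r : ℕ) : 0 ≤ G M r := sum_nonneg fun _ _ => by positivity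

lemma G_le (M r : ℕ) (hr : 1 ≤ r) : G M r ≤ (r.divisors.card : ℝ) * (1 + Real.log M) := by
  have h1 : ∀ m ∈ Icc 1 M, (Nat.gcd m r : ℝ) / m ≤
      ∑ e ∈ r.divisors, if e ∣ m then (e : ℝ) / m else 0 := by
    intro m hm
    have h2 : Nat.gcd m r ∈ r.divisors := Nat.mem_divisors.mpr ⟨Nat.gcd_dvd_right m r, by omega⟩
    have h3 := single_le_sum (f := fun e : ℕ => if e ∣ m then (e : ℝ) / m else 0)
      (fun e _ => by split_ifs <;> positivity) h2
    simp only [if_pos (Nat.gcd_dvd_left m r)] at h3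
    exact h3
  unfold G
  refine (sum_le_sum h1).trans ?_
  rw [sum_comm]
  have h4 : ∀ e ∈ r.divisors, ∑ m ∈ Icc 1 M, (if e ∣ m then (e : ℝ) / m else 0) ≤
      1 + Real.log M := by
    intro e he
    have he1 : 1 ≤ e := Nat.pos_of_mem_divisors he
    have he0 : (0 : ℝ) < e := by exact_mod_cast he1
    refine (mult_sum M e he1 (fun m => (e : ℝ) / m) (fun m => by positivity)).trans ?_
    refine le_trans (le_of_eq ?_) (harm M)
    apply sum_congr rfl
    intro m hm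
    rw [mem_Icc] at hm
    have hm0 : (0 : ℝ) < m := by exact_mod_cast hm.1
    push_cast
    field_simp
  refine (sum_le_sum h4).trans ?_
  rw [sum_const, nsmul_eq_mul]

lemma gcd_mul_le (d m l : ℕ) (hl : 1 ≤ l) : Nat.gcd (d * m) l ≤ Nat.gcd d l * Nat.gcd m l := by
  apply Nat.le_of_dvd
  · exact Nat.mul_pos (Nat.gcd_pos_of_pos_right _ hl) (Nat.gcd_pos_of_pos_right _ hl)
  · exact Nat.gcd_mul_left_dvd_mul_gcd l d m

/-- part B -/
lemma partB (M h l : ℕ) (hh : 1 ≤ h) (hl : 1 ≤ l) (hco : Nat.Coprime h l) :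
    ∑ m ∈ Icc 1 M, ∑ n ∈ Icc 1 M, (Nat.gcd m n : ℝ) * Nat.gcd m l * Nat.gcd n h / ((m : ℝ) * n) ≤
      G M (l * h) * G M l * G M h := by
  have h1 : ∀ m ∈ Icc 1 M, ∀ n ∈ Icc 1 M,
      (Nat.gcd m n : ℝ) * Nat.gcd m l * Nat.gcd n h / ((m : ℝ) * n) ≤
      ∑ d ∈ Icc 1 M, (d : ℝ) * ((if d ∣ m then (Nat.gcd m l : ℝ) / m else 0) *
        (if d ∣ n then (Nat.gcd n h : ℝ) / n else 0)) := by
    intro m hm n hn
    rw [mem_Icc] at hm hn
    have h2 : Nat.gcd m n ∈ Icc 1 M := by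
      rw [mem_Icc]
      exact ⟨Nat.gcd_pos_of_pos_left _ hm.1, (Nat.gcd_le_left n hm.1).trans hm.2⟩
    have h3 := single_le_sum (f := fun d : ℕ => (d : ℝ) *
      ((if d ∣ m then (Nat.gcd m l : ℝ) / m else 0) *
        (if d ∣ n then (Nat.gcd n h : ℝ) / n else 0)))
      (fun e _ => by
        apply mul_nonneg (Nat.cast_nonneg e)
        apply mul_nonneg <;> split_ifs <;> positivity) h2
    simp only [if_pos (Nat.gcd_dvd_left m n), if_pos (Nat.gcd_dvd_right m n)] at h3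
    refine le_trans (le_of_eq ?_) h3
    rw [div_mul_div_comm]
    ring
  refine (sum_le_sum fun m hm => sum_le_sum fun n hn => h1 m hm n hn).trans ?_
  have h2 : ∑ m ∈ Icc 1 M, ∑ n ∈ Icc 1 M, ∑ d ∈ Icc 1 M,
      (d : ℝ) * ((if d ∣ m then (Nat.gcd m l : ℝ) / m else 0) *
        (if d ∣ n then (Nat.gcd n h : ℝ) / n else 0)) =
      ∑ d ∈ Icc 1 M, (d : ℝ) * ((∑ m ∈ Icc 1 M, if d ∣ m then (Nat.gcd m l : ℝ) / m else 0) *
        (∑ n ∈ Icc 1 M, if d ∣ n then (Nat.gcd n h : ℝ) / n else 0)) := by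
    simp_rw [sum_mul_sum, mul_sum]
    rw [sum_congr rfl (fun m _ => sum_comm), sum_comm]
  rw [h2]
  have h3 : ∀ (r : ℕ), 1 ≤ r → ∀ d ∈ Icc 1 M,
      (∑ m ∈ Icc 1 M, if d ∣ m then (Nat.gcd m r : ℝ) / m else 0) ≤ (Nat.gcd d r : ℝ) / d * G M r := by
    intro r hr d hd
    rw [mem_Icc] at hd
    have hd0 : (0 : ℝ) < d := by exact_mod_cast hd.1
    refine (mult_sum M d hd.1 (fun m => (Nat.gcd m r : ℝ) / m) (fun m => by positivity)).trans ?_
    unfold G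
    rw [mul_sum]
    apply sum_le_sum
    intro m hm
    rw [mem_Icc] at hm
    have hm0 : (0 : ℝ) < m := by exact_mod_cast hm.1
    rw [div_mul_div_comm]
    push_cast
    apply div_le_div_of_nonneg_right _ (by positivity)
    exact_mod_cast gcd_mul_le d m r hr
  have h4 : ∀ d ∈ Icc 1 M, (d : ℝ) * ((∑ m ∈ Icc 1 M, if d ∣ m then (Nat.gcd m l : ℝ) / m else 0) *
        (∑ n ∈ Icc 1 M, if d ∣ n then (Nat.gcd n h : ℝ) / n else 0)) ≤
      (Nat.gcd d (l * h) : ℝ) / d * (G M l * G M h) := by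
    intro d hd
    have e1 := h3 l hl d hd
    have e2 := h3 h hh d hd
    rw [mem_Icc] at hd
    have hd0 : (0 : ℝ) < d := by exact_mod_cast hd.1
    have e3 : 0 ≤ ∑ n ∈ Icc 1 M, (if d ∣ n then (Nat.gcd n h : ℝ) / n else 0) :=
      sum_nonneg fun _ _ => by split_ifs <;> positivity
    have e4 : 0 ≤ (Nat.gcd d l : ℝ) / d * G M l := mul_nonneg (by positivity) (G_nonneg _ _)
    calc (d : ℝ) * ((∑ m ∈ Icc 1 M, if d ∣ m then (Nat.gcd m l : ℝ) / m else 0) *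
        (∑ n ∈ Icc 1 M, if d ∣ n then (Nat.gcd n h : ℝ) / n else 0)) ≤
        (d : ℝ) * (((Nat.gcd d l : ℝ) / d * G M l) * ((Nat.gcd d h : ℝ) / d * G M h)) := by
          apply mul_le_mul_of_nonneg_left _ hd0.le
          exact mul_le_mul e1 e2 e3 e4
      _ = _ := by
          rw [Nat.Coprime.gcd_mul d hco.symm]
          push_cast
          field_simp
  refine (sum_le_sum h4).trans ?_
  rw [← sum_mul]
  show G M (l * h) * (G M l * G M h) ≤ _
  rw [mul_assoc]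

lemma gcd_bound (m n g h l : ℕ) (hm : 1 ≤ m) (hn : 1 ≤ n) (hl : 1 ≤ l)
    (hco : Nat.Coprime h l) :
    Nat.gcd (m * (g * h)) (n * (g * l)) ≤ g * (Nat.gcd m n * Nat.gcd m l * Nat.gcd n h) := by
  have e : Nat.gcd (m * (g * h)) (n * (g * l)) = g * Nat.gcd (m * h) (n * l) := by
    rw [show m * (g * h) = g * (m * h) by ring, show n * (g * l) = g * (n * l) by ring,
      Nat.gcd_mul_left]
  rw [e]
  apply Nat.mul_le_mul_left
  have h1 := gcd_mul_le m h (n * l) (Nat.mul_pos hn hl)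
  have h2 : Nat.gcd m (n * l) ≤ Nat.gcd m n * Nat.gcd m l := by
    rw [Nat.gcd_comm m, Nat.gcd_comm m n, Nat.gcd_comm m l]
    exact gcd_mul_le n l m hm
  have h3 : Nat.gcd h (n * l) = Nat.gcd n h := by
    rw [Nat.Coprime.gcd_mul_right_cancel_right n hco.symm, Nat.gcd_comm]
  rw [h3] at h1
  exact h1.trans (Nat.mul_le_mul_right _ h2)

end Pool.Agent.Y369.SX
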