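import Pool.Agent.Y969.SM.Stm
import Pool.Agent.Y369.SX.ArsB

set_option autoImplicit false

/-! The two arithmetic sums in the twisted fourth moment (S_ARS). -/

namespace Pool.Agent.Y369.SX

open Finset
open Pool.Agent.Y969.SM

theorem t_ARS : S_ARS := by
  intro ε hε
  obtain ⟨C, hC, hdiv⟩ := H353.divisor_bound_real (ε / 2) (by positivity)
  refine ⟨16 * (C ^ 2 + C ^ 3), by positivity, ?_⟩
  intro M h0 l0 hM hh0 hl0
  set g := Nat.gcd h0 l0 with hgdef
  have hg : 1 ≤ g := Nat.gcd_pos_of_pos_left _ hh0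
  obtain ⟨h, hh⟩ : g ∣ h0 := Nat.gcd_dvd_left _ _
  obtain ⟨l, hl⟩ : g ∣ l0 := Nat.gcd_dvd_right _ _
  have hh1 : 1 ≤ h := by
    rcases Nat.eq_zero_or_pos h with e | e
    · rw [e] at hh; omega
    · exact e
  have hl1 : 1 ≤ l := by
    rcases Nat.eq_zero_or_pos l with e | e
    · rw [e] at hl; omega
    · exact e
  have hco : Nat.Coprime h l := by
    have h1 : g = g * Nat.gcd h l := by
      conv_lhs => rw [hgdef, hh, hl, Nat.gcd_mul_left]
    have h2 : g * 1 = g * Nat.gcd h l := by rw [mul_one]; exact h1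
    exact (Nat.eq_of_mul_eq_mul_left hg h2).symm
  clear_value g
  clear hgdef
  have hlog : 0 ≤ Real.log (M : ℝ) := Real.log_natCast_nonneg M
  have hgR : (0 : ℝ) < g := by exact_mod_cast hg
  have hhR : (0 : ℝ) < h := by exact_mod_cast hh1
  have hlR : (0 : ℝ) < l := by exact_mod_cast hl1
  have hh1R : (1 : ℝ) ≤ h := by exact_mod_cast hh1
  have hl1R : (1 : ℝ) ≤ l := by exact_mod_cast hl1
  have hg1R : (1 : ℝ) ≤ g := by exact_mod_cast hg
  have hdh := hdiv h (by omega)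
  have hdl := hdiv l (by omega)
  have hdlh := hdiv (l * h) (Nat.mul_ne_zero (by omega) (by omega))
  have hprod : (h0 * l0 : ℕ) = g * g * (h * l) := by rw [hh, hl]; ring
  have hprodR : ((h0 * l0 : ℕ) : ℝ) = g * g * (h * l) := by rw [hprod]; push_cast; ring
  have hle1 : (h : ℝ) * l ≤ ((h0 * l0 : ℕ) : ℝ) := by
    rw [hprodR]
    have : (1 : ℝ) ≤ g * g := by nlinarith
    have h2 : (0 : ℝ) ≤ h * l := by positivity
    nlinarith
  have hone : (1 : ℝ) ≤ (h : ℝ) * l := by nlinarith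
  have hpw1 : ((h : ℝ) * l) ^ (ε / 2) ≤ ((h0 * l0 : ℕ) : ℝ) ^ ε := by
    calc ((h : ℝ) * l) ^ (ε / 2) ≤ ((h : ℝ) * l) ^ ε :=
          Real.rpow_le_rpow_of_exponent_le hone (by linarith)
      _ ≤ _ := Real.rpow_le_rpow (by positivity) hle1 hε.le
  have hpw2 : ((h : ℝ) * l) ^ ε ≤ ((h0 * l0 : ℕ) : ℝ) ^ ε :=
    Real.rpow_le_rpow (by positivity) hle1 hε.le
  have hP0 : 0 ≤ ((h0 * l0 : ℕ) : ℝ) ^ ε := Real.rpow_nonneg (Nat.cast_nonneg _) _
  have hdd : (l.divisors.card : ℝ) * h.divisors.card ≤ C ^ 2 * ((h : ℝ) * l) ^ (ε / 2) := by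
    rw [Real.mul_rpow hhR.le hlR.le]
    calc (l.divisors.card : ℝ) * h.divisors.card ≤ (C * (l : ℝ) ^ (ε / 2)) * (C * (h : ℝ) ^ (ε / 2)) := by
          gcongr
      _ = _ := by ring
  have hlh0 : (h0 : ℝ) = g * h := by rw [hh]; push_cast; ring
  have hll0 : (l0 : ℝ) = g * l := by rw [hl]; push_cast; ring
  have hR : (g : ℝ) / ((h0 : ℝ) * l0) = 1 / (g * h * l) := by
    rw [hlh0, hll0]
    field_simp
  constructor
  · have hA := partA M g h l hg hh1 hl1 hco
    rw [← hh, ← hl] at hA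
    refine hA.trans ?_
    have h1 := tau_sq_sum (M ^ 2)
    have h2 : 1 + Real.log ((M ^ 2 : ℕ) : ℝ) ≤ 2 * (1 + Real.log M) := by
      push_cast
      rw [Real.log_pow]
      push_cast
      linarith
    have h3 : 0 ≤ 1 + Real.log ((M ^ 2 : ℕ) : ℝ) := by
      have := Real.log_natCast_nonneg (M ^ 2)
      linarith
    have h4 : ∑ k ∈ Icc 1 (M ^ 2), (k.divisors.card : ℝ) ^ 2 / k ≤ 16 * (1 + Real.log M) ^ 4 := by
      refine h1.trans ?_
      calc (1 + Real.log ((M ^ 2 : ℕ) : ℝ)) ^ 4 ≤ (2 * (1 + Real.log M)) ^ 4 :=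
            pow_le_pow_left₀ h3 h2 4
        _ = _ := by ring
    have h5 : (l.divisors.card : ℝ) * h.divisors.card ≤ C ^ 2 * ((h0 * l0 : ℕ) : ℝ) ^ ε :=
      hdd.trans (mul_le_mul_of_nonneg_left hpw1 (by positivity))
    rw [mul_div_assoc (((h0 * l0 : ℕ) : ℝ) ^ ε), hR]
    calc (l.divisors.card : ℝ) * h.divisors.card / ((g : ℝ) * h * l) *
          ∑ k ∈ Icc 1 (M ^ 2), (k.divisors.card : ℝ) ^ 2 / k ≤
        (C ^ 2 * ((h0 * l0 : ℕ) : ℝ) ^ ε) / ((g : ℝ) * h * l) * (16 * (1 + Real.log M) ^ 4) := by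
          gcongr
      _ = 16 * C ^ 2 * (1 + Real.log M) ^ 4 * (((h0 * l0 : ℕ) : ℝ) ^ ε * (1 / ((g : ℝ) * h * l))) := by
          ring
      _ ≤ 16 * (C ^ 2 + C ^ 3) * (1 + Real.log M) ^ 4 *
          (((h0 * l0 : ℕ) : ℝ) ^ ε * (1 / ((g : ℝ) * h * l))) := by
          gcongr
          have : 0 < C ^ 3 := by positivity
          linarith
  · have h1 : ∀ m ∈ Icc 1 M, ∀ n ∈ Icc 1 M,
        (Nat.gcd (m * h0) (n * l0) : ℝ) / ((m : ℝ) * h0 * (n * l0)) ≤
        (g : ℝ) / (h0 * l0) * ((Nat.gcd m n : ℝ) * Nat.gcd m l * Nat.gcd n h / ((m : ℝ) * n)) := by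
      intro m hm n hn
      rw [mem_Icc] at hm hn
      have h2 := gcd_bound m n g h l hm.1 hn.1 hl1 hco
      rw [← hh, ← hl] at h2
      have h2' : (Nat.gcd (m * h0) (n * l0) : ℝ) ≤
          g * ((Nat.gcd m n : ℝ) * Nat.gcd m l * Nat.gcd n h) := by exact_mod_cast h2
      have hm0 : (0 : ℝ) < m := by exact_mod_cast hm.1
      have hn0 : (0 : ℝ) < n := by exact_mod_cast hn.1
      have e : (g : ℝ) / (h0 * l0) * ((Nat.gcd m n : ℝ) * Nat.gcd m l * Nat.gcd n h / ((m : ℝ) * n)) =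
          g * ((Nat.gcd m n : ℝ) * Nat.gcd m l * Nat.gcd n h) / ((m : ℝ) * h0 * (n * l0)) := by
        rw [div_mul_div_comm]
        congr 1
        ring
      rw [e]
      apply div_le_div_of_nonneg_right h2'
      positivity
    refine (sum_le_sum fun m hm => sum_le_sum fun n hn => h1 m hm n hn).trans ?_
    simp_rw [← mul_sum]
    have h3 := partB M h l hh1 hl1 hco
    have g1 := G_le M (l * h) (Nat.mul_pos hl1 hh1)
    have g2 := G_le M l hl1
    have g3 := G_le M h hh1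
    have p1 := G_nonneg M (l * h)
    have p2 := G_nonneg M l
    have p3 := G_nonneg M h
    have h4 : G M (l * h) * G M l * G M h ≤ ((l * h).divisors.card : ℝ) *
        ((l.divisors.card : ℝ) * h.divisors.card) * (1 + Real.log M) ^ 3 := by
      calc G M (l * h) * G M l * G M h ≤ (((l * h).divisors.card : ℝ) * (1 + Real.log M)) *
            ((l.divisors.card : ℝ) * (1 + Real.log M)) * ((h.divisors.card : ℝ) * (1 + Real.log M)) := by
            gcongr
        _ = _ := by ring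
    have h5 : ((l * h).divisors.card : ℝ) * ((l.divisors.card : ℝ) * h.divisors.card) ≤
        C ^ 3 * ((h0 * l0 : ℕ) : ℝ) ^ ε := by
      have e1 : ((l * h : ℕ) : ℝ) ^ (ε / 2) = ((h : ℝ) * l) ^ (ε / 2) := by
        push_cast; rw [mul_comm]
      rw [e1] at hdlh
      calc ((l * h).divisors.card : ℝ) * ((l.divisors.card : ℝ) * h.divisors.card) ≤
          (C * ((h : ℝ) * l) ^ (ε / 2)) * (C ^ 2 * ((h : ℝ) * l) ^ (ε / 2)) := by gcongr
        _ = C ^ 3 * (((h : ℝ) * l) ^ (ε / 2) * ((h : ℝ) * l) ^ (ε / 2)) := by ring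
        _ = C ^ 3 * ((h : ℝ) * l) ^ ε := by
            rw [← Real.rpow_add (by positivity)]
            congr 2
            ring
        _ ≤ _ := by gcongr
    rw [mul_div_assoc (((h0 * l0 : ℕ) : ℝ) ^ ε)]
    calc (g : ℝ) / (h0 * l0) * ∑ m ∈ Icc 1 M, ∑ n ∈ Icc 1 M,
          (Nat.gcd m n : ℝ) * Nat.gcd m l * Nat.gcd n h / ((m : ℝ) * n) ≤
        (g : ℝ) / (h0 * l0) * ((C ^ 3 * ((h0 * l0 : ℕ) : ℝ) ^ ε) * (1 + Real.log M) ^ 3) := by
          apply mul_le_mul_of_nonneg_left _ (by positivity)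
          refine h3.trans (h4.trans ?_)
          gcongr
      _ = C ^ 3 * (1 + Real.log M) ^ 3 * (((h0 * l0 : ℕ) : ℝ) ^ ε * ((g : ℝ) / (h0 * l0))) := by
          ring
      _ ≤ _ := by
          gcongr
          have : 0 < C ^ 2 := by positivity
          have : 0 < C ^ 3 := by positivity
          linarith

end Pool.Agent.Y369.SX
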