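import Pool.Agent.H353R2.Z2

set_option autoImplicit false

/-! Two arithmetic sums: parts. -/

namespace Pool.Agent.Y369.SX

open Finset

lemma harm (N : ℕ) : ∑ n ∈ Icc 1 N, (1 : ℝ) / n ≤ 1 + Real.log N := by
  have h := harmonic_le_one_add_log N
  rw [harmonic_eq_sum_Icc] at h
  push_cast at h
  have e : ∑ n ∈ Icc 1 N, (1 / (n : ℝ)) = ∑ n ∈ Icc 1 N, ((n : ℝ))⁻¹ := by simp
  rw [e]; exact h

lemma tau_mul (a b : ℕ) : ((a * b).divisors.card : ℝ) ≤ (a.divisors.card : ℝ) * b.divisors.card := by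
  rw [Nat.divisors_mul]
  exact_mod_cast Finset.card_mul_le

lemma conv_le (N : ℕ) (F : ℕ → ℕ → ℝ) (hF : ∀ a b, 0 ≤ F a b) :
    ∑ n ∈ Icc 1 N, ∑ i ∈ n.divisorsAntidiagonal, F i.1 i.2 ≤
      ∑ a ∈ Icc 1 N, ∑ b ∈ Icc 1 N, F a b := by
  rw [← sum_product' (Icc 1 N) (Icc 1 N) F]
  have h1 : ∑ n ∈ Icc 1 N, ∑ i ∈ n.divisorsAntidiagonal, F i.1 i.2 =
      ∑ n ∈ Icc 1 N, ∑ p ∈ ((Icc 1 N ×ˢ Icc 1 N).filter (fun p => p.1 * p.2 ≤ N)).filter
        (fun p => p.1 * p.2 = n), F p.1 p.2 := by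
    apply sum_congr rfl
    intro n hn
    rw [mem_Icc] at hn
    apply sum_congr _ (fun _ _ => rfl)
    ext ⟨a, b⟩
    rw [Nat.mem_divisorsAntidiagonal, mem_filter, mem_filter, mem_product, mem_Icc, mem_Icc]
    constructor
    · rintro ⟨h1, h2⟩
      simp only at h1 ⊢
      have ha : a ≠ 0 := by rintro rfl; simp at h1; omega
      have hb : b ≠ 0 := by rintro rfl; simp at h1; omega
      have ha2 : a ≤ a * b := Nat.le_mul_of_pos_right a (by omega)
      have hb2 : b ≤ a * b := Nat.le_mul_of_pos_left b (by omega)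
      refine ⟨⟨⟨⟨by omega, by omega⟩, by omega, by omega⟩, by omega⟩, h1⟩
    · rintro ⟨_, h2⟩
      exact ⟨h2, by omega⟩
  rw [h1, sum_fiberwise_of_maps_to]
  · apply sum_le_sum_of_subset_of_nonneg (filter_subset _ _)
    intro p _ _
    exact hF _ _
  · intro p hp
    rw [mem_filter, mem_product, mem_Icc, mem_Icc] at hp
    rw [mem_Icc]
    exact ⟨Nat.mul_pos hp.1.1.1 hp.1.2.1, hp.2⟩

lemma card_anti (n : ℕ) : n.divisorsAntidiagonal.card = n.divisors.card := by
  rw [← Nat.map_div_right_divisors, card_map]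

lemma tau_sum (N : ℕ) : ∑ n ∈ Icc 1 N, (n.divisors.card : ℝ) / n ≤ (1 + Real.log N) ^ 2 := by
  have h1 : ∑ n ∈ Icc 1 N, (n.divisors.card : ℝ) / n =
      ∑ n ∈ Icc 1 N, ∑ i ∈ n.divisorsAntidiagonal, (1 : ℝ) / i.1 * (1 / i.2) := by
    apply sum_congr rfl
    intro n hn
    have h2 : ∀ i ∈ n.divisorsAntidiagonal, (1 : ℝ) / i.1 * (1 / i.2) = 1 / n := by
      intro i hi
      rw [Nat.mem_divisorsAntidiagonal] at hi
      rw [← hi.1]; push_cast; rw [one_div_mul_one_div]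
    rw [sum_congr rfl h2, sum_const, nsmul_eq_mul, card_anti]
    ring
  rw [h1]
  refine (conv_le N (fun a b => (1 : ℝ) / a * (1 / b)) (fun a b => by positivity)).trans ?_
  have h3 : 0 ≤ ∑ c ∈ Icc 1 N, (1 : ℝ) / c := sum_nonneg fun _ _ => by positivity
  have h4 := harm N
  rw [← sum_mul_sum, ← sq]
  exact pow_le_pow_left₀ h3 h4 2

lemma tau_sq_sum (N : ℕ) : ∑ n ∈ Icc 1 N, (n.divisors.card : ℝ) ^ 2 / n ≤ (1 + Real.log N) ^ 4 := by
  have h1 : ∑ n ∈ Icc 1 N, (n.divisors.card : ℝ) ^ 2 / n ≤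
      ∑ n ∈ Icc 1 N, ∑ i ∈ n.divisorsAntidiagonal,
        ((i.1.divisors.card : ℝ) / i.1) * ((i.2.divisors.card : ℝ) / i.2) := by
    apply sum_le_sum
    intro n hn
    have h2 : ∀ i ∈ n.divisorsAntidiagonal, (n.divisors.card : ℝ) / n ≤
        ((i.1.divisors.card : ℝ) / i.1) * ((i.2.divisors.card : ℝ) / i.2) := by
      intro i hi
      rw [Nat.mem_divisorsAntidiagonal] at hi
      rw [div_mul_div_comm, ← hi.1]
      push_cast
      gcongr
      exact tau_mul _ _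
    have h3 := sum_le_sum h2
    rw [sum_const, nsmul_eq_mul, card_anti] at h3
    calc (n.divisors.card : ℝ) ^ 2 / n = (n.divisors.card : ℝ) * ((n.divisors.card : ℝ) / n) := by ring
      _ ≤ _ := h3
  refine h1.trans ?_
  refine (conv_le N (fun a b => ((a.divisors.card : ℝ) / a) * ((b.divisors.card : ℝ) / b))
    (fun a b => by positivity)).trans ?_
  have h3 : 0 ≤ ∑ c ∈ Icc 1 N, (c.divisors.card : ℝ) / c := sum_nonneg fun _ _ => by positivity
  have h4 := tau_sum N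
  rw [← sum_mul_sum, ← sq]
  calc _ ≤ ((1 + Real.log N) ^ 2) ^ 2 := pow_le_pow_left₀ h3 h4 2
    _ = _ := by ring

/-- part A -/
lemma partA (M g h l : ℕ) (hg : 1 ≤ g) (hh : 1 ≤ h) (hl : 1 ≤ l)
    (hco : Nat.Coprime h l) :
    ∑ m ∈ Icc 1 M, ∑ n ∈ Icc 1 M, (if g * l ∣ m * n * (g * h) then
      ((m * n * (g * h) / (g * l)).divisors.card : ℝ) / ((m : ℝ) * n * ((g * h : ℕ) : ℝ)) else 0) ≤
    (l.divisors.card : ℝ) * h.divisors.card / ((g : ℝ) * h * l) *
      ∑ k ∈ Icc 1 (M ^ 2), (k.divisors.card : ℝ) ^ 2 / k := by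
  have hg0 : (0 : ℝ) < g := by exact_mod_cast hg
  have hh0 : (0 : ℝ) < h := by exact_mod_cast hh
  have hl0 : (0 : ℝ) < l := by exact_mod_cast hl
  have h1 : ∀ m ∈ Icc 1 M, ∀ n ∈ Icc 1 M, (if g * l ∣ m * n * (g * h) then
      ((m * n * (g * h) / (g * l)).divisors.card : ℝ) / ((m : ℝ) * n * ((g * h : ℕ) : ℝ)) else 0) ≤
      if l ∣ m * n then ((m * n / l).divisors.card : ℝ) * h.divisors.card /
        ((m : ℝ) * n * (g * h)) else 0 := by
    intro m hm n hn
    by_cases hd : g * l ∣ m * n * (g * h)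
    · have hd2 : l ∣ m * n := by
        have : g * l ∣ g * (m * n * h) := by
          have e : m * n * (g * h) = g * (m * n * h) := by ring
          rwa [e] at hd
        have h3 : l ∣ m * n * h := Nat.dvd_of_mul_dvd_mul_left (by omega) this
        exact hco.symm.dvd_of_dvd_mul_right h3
      rw [if_pos hd, if_pos hd2]
      have e2 : m * n * (g * h) / (g * l) = (m * n / l) * h := by
        obtain ⟨k, hk⟩ := hd2
        rw [hk, Nat.mul_div_cancel_left k (by omega)]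
        have e : l * k * (g * h) = g * l * (k * h) := by ring
        rw [e, Nat.mul_div_cancel_left _ (Nat.mul_pos (by omega) (by omega))]
      rw [e2]
      push_cast
      apply div_le_div_of_nonneg_right (tau_mul _ _)
      positivity
    · rw [if_neg hd]
      split_ifs
      · positivity
      · exact le_rfl
  refine (sum_le_sum fun m hm => sum_le_sum fun n hn => h1 m hm n hn).trans ?_
  rw [← sum_product' (Icc 1 M) (Icc 1 M) (fun m n => if l ∣ m * n then
    ((m * n / l).divisors.card : ℝ) * h.divisors.card / ((m : ℝ) * n * (g * h)) else 0),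
    ← sum_filter]
  have hmaps : ∀ p ∈ (Icc 1 M ×ˢ Icc 1 M).filter (fun p : ℕ × ℕ => l ∣ p.1 * p.2),
      p.1 * p.2 / l ∈ Icc 1 (M ^ 2) := by
    intro p hp
    rw [mem_filter, mem_product, mem_Icc, mem_Icc] at hp
    obtain ⟨⟨⟨h1, h2⟩, h3, h4⟩, k, hk⟩ := hp
    rw [hk, Nat.mul_div_cancel_left k (by omega), mem_Icc]
    have h5 : 0 < p.1 * p.2 := Nat.mul_pos h1 h3
    have h6 : p.1 * p.2 ≤ M * M := Nat.mul_le_mul h2 h4
    have hk0 : k ≠ 0 := by rintro rfl; rw [hk] at h5; simp at h5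
    have h7 : k ≤ l * k := Nat.le_mul_of_pos_left k (by omega)
    refine ⟨by omega, ?_⟩
    rw [sq]
    omega
  rw [← sum_fiberwise_of_maps_to hmaps, mul_sum]
  apply sum_le_sum
  intro k hk
  rw [mem_Icc] at hk
  have hk0 : (0 : ℝ) < k := by exact_mod_cast hk.1
  have h2 : ∀ p ∈ ((Icc 1 M ×ˢ Icc 1 M).filter (fun p : ℕ × ℕ => l ∣ p.1 * p.2)).filter
      (fun p => p.1 * p.2 / l = k), ((p.1 * p.2 / l).divisors.card : ℝ) * h.divisors.card /
        ((p.1 : ℝ) * p.2 * (g * h)) = (k.divisors.card : ℝ) * h.divisors.card /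
        ((l : ℝ) * k * (g * h)) := by
    intro p hp
    rw [mem_filter, mem_filter] at hp
    have e : p.1 * p.2 = l * k := by
      rw [← hp.2]
      exact (Nat.mul_div_cancel' hp.1.2).symm
    have e2 : (p.1 : ℝ) * p.2 = l * k := by exact_mod_cast e
    rw [hp.2, e2]
  rw [sum_congr rfl h2, sum_const, nsmul_eq_mul]
  have h3 : (((((Icc 1 M ×ˢ Icc 1 M).filter (fun p : ℕ × ℕ => l ∣ p.1 * p.2)).filter
      (fun p => p.1 * p.2 / l = k)).card : ℕ) : ℝ) ≤ (l.divisors.card : ℝ) * k.divisors.card := by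
    refine le_trans ?_ (tau_mul l k)
    rw [← card_anti (l * k)]
    apply Nat.cast_le.mpr
    apply card_le_card
    intro p hp
    rw [mem_filter, mem_filter] at hp
    rw [Nat.mem_divisorsAntidiagonal]
    refine ⟨?_, ?_⟩
    · rw [← hp.2]
      exact (Nat.mul_div_cancel' hp.1.2).symm
    · have : 0 < l * k := Nat.mul_pos (by omega) (by omega)
      omega
  calc _ ≤ ((l.divisors.card : ℝ) * k.divisors.card) * ((k.divisors.card : ℝ) * h.divisors.card /
        ((l : ℝ) * k * (g * h))) := mul_le_mul_of_nonneg_right h3 (by positivity)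
    _ = _ := by
      field_simp

end Pool.Agent.Y369.SX
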